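import Pool.Agent.Helper72.KreissComplex

/-!
# Power growth of positive strongly Kreiss bounded operators on `L^p`

For every `1 < p < ∞` the powers of a positive strongly Kreiss bounded operator on `L^p` grow at
most like a power of the logarithm, uniformly in the measure space and in the operator once the
Kreiss constant is fixed. In particular the optimal polynomial exponent is `0`.
-/

open MeasureTheory
open scoped ENNReal

universe u v

namespace Pool.Agent.Results.MP_62709f_an.PolylogGrowth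

/-- The complex Banach space `L^p(S, μ)`: Mathlib's `MeasureTheory.Lp ℂ p μ` under a short name. -/
def LpC {S : Type u} [MeasurableSpace S] (μ : Measure S) (p : ℝ≥0∞) : Type u := Lp ℂ p μ

/-- Mathlib's `L^p` norm. -/
noncomputable instance instNormedAddCommGroupLpC {S : Type u} [MeasurableSpace S] (μ : Measure S)
    (p : ℝ≥0∞) [Fact (1 ≤ p)] : NormedAddCommGroup (LpC μ p) :=
  (inferInstance : NormedAddCommGroup (Lp ℂ p μ))

/-- Mathlib's complex vector space structure on `L^p`. -/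
noncomputable instance instNormedSpaceLpC {S : Type u} [MeasurableSpace S] (μ : Measure S)
    (p : ℝ≥0∞) [Fact (1 ≤ p)] : NormedSpace ℂ (LpC μ p) :=
  (inferInstance : NormedSpace ℂ (Lp ℂ p μ))

/-- A representative of an element of `L^p`. -/
noncomputable def rep {S : Type u} [MeasurableSpace S] {μ : Measure S} {p : ℝ≥0∞} (f : LpC μ p) :
    S → ℂ :=
  ((show Lp ℂ p μ from f) : S → ℂ)

/-- `f` is real and nonnegative almost everywhere. -/
def NonnegAE {S : Type u} [MeasurableSpace S] {μ : Measure S} {p : ℝ≥0∞} (f : LpC μ p) : Prop :=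
  ∀ᵐ s ∂μ, 0 ≤ (rep f s).re ∧ (rep f s).im = 0

/-- A bounded operator on complex `L^p` is positive if it maps functions that are almost everywhere
real and nonnegative to functions that are almost everywhere real and nonnegative. -/
def IsPositiveOp {S : Type u} [MeasurableSpace S] {μ : Measure S} {p : ℝ≥0∞} [Fact (1 ≤ p)]
    (T : LpC μ p →L[ℂ] LpC μ p) : Prop :=
  ∀ f : LpC μ p, NonnegAE f → NonnegAE (T f)

/-- `T` is strongly Kreiss bounded with constant `M`: the spectrum lies in the closed unit disc and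
`‖R(z, T) ^ k‖ ≤ M / (|z| - 1) ^ k` for all `|z| > 1` and `k ≥ 1`. -/
def StronglyKreissWith {X : Type v} [NormedAddCommGroup X] [NormedSpace ℂ X] (T : X →L[ℂ] X)
    (M : ℝ) : Prop :=
  spectrum ℂ T ⊆ Metric.closedBall 0 1 ∧
    ∀ z : ℂ, 1 < ‖z‖ → ∀ k : ℕ, 1 ≤ k → ‖resolvent T z ^ k‖ ≤ M / (‖z‖ - 1) ^ k

/-- `‖T ^ n‖ ≤ g n` for all `n ≥ 1`. -/
def PowersBoundedBy {X : Type v} [NormedAddCommGroup X] [NormedSpace ℂ X] (T : X →L[ℂ] X)
    (g : ℕ → ℝ) : Prop :=
  ∀ n : ℕ, 1 ≤ n → ‖T ^ n‖ ≤ g n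

/-- The set of exponents of the problem: those `θ` in `[0, 1/2)` such that for every measure space
and every positive, strongly Kreiss bounded `T` on its `L^p` there is a constant `C` (depending on
`T`) with `‖T ^ n‖ ≤ C n ^ θ` for all `n ≥ 1`. -/
def growthExponents (p : ℝ≥0∞) [Fact (1 ≤ p)] : Set ℝ :=
  {θ : ℝ | 0 ≤ θ ∧ θ < 1 / 2 ∧
    ∀ (S : Type u) [MeasurableSpace S] (μ : Measure S) (T : LpC μ p →L[ℂ] LpC μ p),
      IsPositiveOp T → (∃ M : ℝ, StronglyKreissWith T M) →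
      ∃ C : ℝ, PowersBoundedBy T (fun n => C * (n : ℝ) ^ θ)}

/-- The optimal exponent `θ_p` of the problem. -/
noncomputable def thetaP (p : ℝ≥0∞) [Fact (1 ≤ p)] : ℝ := sInf (growthExponents.{u} p)

lemma polylog (p : ℝ≥0∞) [Fact (1 ≤ p)] (hp1 : 1 < p) (hpt : p ≠ ⊤) (M : ℝ) :
    ∃ C κ : ℝ, 0 ≤ κ ∧ ∀ (S : Type u) [MeasurableSpace S] (μ : Measure S)
      (T : LpC μ p →L[ℂ] LpC μ p), IsPositiveOp T → StronglyKreissWith T M →
      PowersBoundedBy T (fun n => C * (1 + Real.log n) ^ κ) := by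
  obtain ⟨C, κ, -, hκ, h⟩ := Helper72.Kreiss.complex_growth.{u} hpt hp1 M
  refine ⟨C, κ, hκ, ?_⟩
  intro S _ μ T hT hK n hn
  refine h S μ T ?_ hK.1 ?_ n hn
  · intro f hf
    have hf' : NonnegAE (f : LpC μ p) := by
      unfold NonnegAE
      filter_upwards [hf] with s hs
      have := Complex.nonneg_iff.mp hs
      exact ⟨this.1, this.2.symm⟩
    have hTf := hT f hf'
    unfold NonnegAE at hTf
    filter_upwards [hTf] with s hs
    exact Complex.nonneg_iff.mpr ⟨hs.1, hs.2.symm⟩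
  · intro k hk
    have h2 := hK.2 2 (by norm_num) k hk
    have h3 : M / (‖(2 : ℂ)‖ - 1) ^ k = M := by norm_num
    rw [h3] at h2
    exact h2

lemma mem_growthExponents (p : ℝ≥0∞) [Fact (1 ≤ p)] (hp1 : 1 < p) (hpt : p ≠ ⊤) {θ : ℝ}
    (h0 : 0 < θ) (h1 : θ < 1 / 2) : θ ∈ growthExponents.{u} p := by
  refine ⟨h0.le, h1, ?_⟩
  rintro S _ μ T hT ⟨M, hM⟩
  obtain ⟨C, κ, hκ, h⟩ := polylog.{u} p hp1 hpt M
  set ε := θ / (κ + 1) with hε
  have hε0 : 0 < ε := by positivity
  refine ⟨|C| * (1 + 1 / ε) ^ κ, ?_⟩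
  intro n hn
  have hn1 : (1 : ℝ) ≤ n := by exact_mod_cast hn
  have hlog0 : 0 ≤ Real.log n := Real.log_nonneg hn1
  have hlog : Real.log n ≤ (n : ℝ) ^ ε / ε := Real.log_le_rpow_div (by linarith) hε0
  have hnε : 1 ≤ (n : ℝ) ^ ε := Real.one_le_rpow hn1 hε0.le
  have h2 : 1 + Real.log n ≤ (1 + 1 / ε) * (n : ℝ) ^ ε := by
    have : (n : ℝ) ^ ε / ε = 1 / ε * (n : ℝ) ^ ε := by ring
    rw [this] at hlog
    linarith
  have h3 : (1 + Real.log n) ^ κ ≤ (1 + 1 / ε) ^ κ * (n : ℝ) ^ θ := by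
    calc (1 + Real.log n) ^ κ ≤ ((1 + 1 / ε) * (n : ℝ) ^ ε) ^ κ :=
          Real.rpow_le_rpow (by linarith) h2 hκ
      _ = (1 + 1 / ε) ^ κ * (n : ℝ) ^ (ε * κ) := by
          rw [Real.mul_rpow (by positivity) (by positivity), ← Real.rpow_mul (by linarith)]
      _ ≤ (1 + 1 / ε) ^ κ * (n : ℝ) ^ θ := by
          apply mul_le_mul_of_nonneg_left _ (by positivity)
          apply Real.rpow_le_rpow_of_exponent_le hn1
          rw [hε, div_mul_eq_mul_div, div_le_iff₀ (by positivity)]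
          nlinarith
  calc ‖T ^ n‖ ≤ C * (1 + Real.log n) ^ κ := h S μ T hT hM n hn
    _ ≤ |C| * (1 + Real.log n) ^ κ := by
        apply mul_le_mul_of_nonneg_right (le_abs_self C)
        positivity
    _ ≤ |C| * ((1 + 1 / ε) ^ κ * (n : ℝ) ^ θ) := mul_le_mul_of_nonneg_left h3 (abs_nonneg _)
    _ = _ := by ring

/-- For `1 < p < ∞` the optimal exponent `θ_p` equals `0`; moreover, for each Kreiss constant `M`
there are `C` and `κ` such that `‖T ^ n‖ ≤ C (1 + log n) ^ κ` for all `n ≥ 1`, all measure spaces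
and all positive operators that are strongly Kreiss bounded with constant `M`. -/
theorem result (p : ℝ≥0∞) [Fact (1 ≤ p)] (hp1 : 1 < p) (hpt : p ≠ ⊤) :
    thetaP.{u} p = 0 ∧
    ∀ M : ℝ, ∃ C κ : ℝ, ∀ (S : Type u) [MeasurableSpace S] (μ : Measure S)
      (T : LpC μ p →L[ℂ] LpC μ p), IsPositiveOp T → StronglyKreissWith T M →
      PowersBoundedBy T (fun n => C * (1 + Real.log n) ^ κ) := by
  refine ⟨?_, fun M => ?_⟩
  · have hbdd : BddBelow (growthExponents.{u} p) := ⟨0, fun θ hθ => hθ.1⟩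
    apply le_antisymm
    · apply le_of_forall_pos_le_add
      intro ε hε
      have hm : min ε (1 / 4) ∈ growthExponents.{u} p :=
        mem_growthExponents p hp1 hpt (lt_min hε (by norm_num))
          (lt_of_le_of_lt (min_le_right _ _) (by norm_num))
      calc thetaP.{u} p ≤ min ε (1 / 4) := csInf_le hbdd hm
        _ ≤ 0 + ε := by rw [zero_add]; exact min_le_left _ _
    · exact Real.sInf_nonneg fun θ hθ => hθ.1
  · obtain ⟨C, κ, -, h⟩ := polylog.{u} p hp1 hpt M
    exact ⟨C, κ, h⟩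

end Pool.Agent.Results.MP_62709f_an.PolylogGrowth
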